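import Pool.Agent.Lib.MP_e1f7e2_al.SU.H72.Y

set_option autoImplicit false

/-!
Module X.
-/

open MvPolynomial

namespace Pool.Agent.Lib.MP_e1f7e2_al.SU.H72

open Pool.Agent.Lib.MP_e1f7e2_al.SU.H52

variable {K : Type*} [Field K] {w : Fin 3 → ℝ}

lemma br_add_le (F : Facts K w) {f g k : MvPolynomial (Fin 3) K} {a : ℝ} (h1 : br w f k ≤ a)
    (h2 : br w g k ≤ a) (c : K) : br w (f + C c * g) k ≤ a := by
  have e : br w (f + C c * g) k ≤ max (br w f k) (br w g k) := by
    unfold br
    rw [D_add, D_Cmul, cr_add_left, cr_smul_left]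
    exact (F.v.add_le _ _).trans (max_le_max le_rfl (dvC_le F c _))
  exact e.trans (max_le h1 h2)

lemma br_add_self (f g : MvPolynomial (Fin 3) K) (c : K) :
    br w (f + C c * g) g = br w f g := by
  unfold br
  rw [D_add, D_Cmul, cr_add_left, cr_smul_left, cr_self, smul_zero, add_zero]

lemma br_add_self' (f g : MvPolynomial (Fin 3) K) (c : K) :
    br w g (f + C c * g) = br w g f := by
  unfold br
  rw [D_add, D_Cmul, cr_add_right, cr_smul_right, cr_self, smul_zero, add_zero]

/-- the pair `(3 γ, 2 γ)` -/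
lemma sud32 {f g : MvPolynomial (Fin 3) K} {P : MvPolynomial (Fin 2) K} {p q m : ℕ} {γ γ' : ℝ}
    (hγ : 0 < γ) (hf : dg w f = 3 * γ) (hg : dg w g = 2 * γ) (h : SUD w f g P p q m γ') :
    p = 3 ∧ q = 2 ∧ γ' = γ := by
  have hγ' := h.hγ
  have h1 := h.df
  have h2 := h.dg'
  rw [hf] at h1
  rw [hg] at h2
  have e1 : (2 * p : ℝ) = 3 * q := by
    have h4 : (2 * p - 3 * q : ℝ) * γ' = 0 := by linarith
    rcases mul_eq_zero.mp h4 with h5 | h5
    · linarith
    · exact absurd h5 hγ'.ne'
  have e2 : 2 * p = 3 * q := by exact_mod_cast e1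
  have e3 : 3 ∣ p := (Nat.Coprime.dvd_of_dvd_mul_left (by norm_num : Nat.Coprime 3 2)) ⟨q, e2⟩
  obtain ⟨k, rfl⟩ := e3
  have e4 : q = 2 * k := by omega
  subst e4
  have hc := h.cop
  have e5 : k ∣ Nat.gcd (3 * k) (2 * k) := Nat.dvd_gcd ⟨3, by ring⟩ ⟨2, by ring⟩
  rw [hc] at e5
  have e6 : k = 1 := Nat.dvd_one.mp e5
  subst e6
  refine ⟨rfl, rfl, ?_⟩
  push_cast at h1
  linarith

/-- `[f2,g3]` is large -/
lemma B1_lower (F : Facts K w) (S : SuAll K w) {f1 f2 g3 : MvPolynomial (Fin 3) K}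
    {P0 : MvPolynomial (Fin 2) K} {γ : ℝ} (hfr : Fr f1 f2 g3) (hγ : 0 < γ)
    (h1 : dg w f1 = 3 * γ) (h2 : dg w f2 = 2 * γ) (hc : ¬ ∃ c : K, P0 = C c)
    (hP : dg w (ev P0 f1 f2) ≤ 3 / 2 * γ) : 3 / 2 * γ + sg w ≤ br w f2 g3 := by
  have hb := F.b.bpos f1 f2 g3 hfr
  have hv : dg w (ev P0 f1 f2) < vdg (dg w f1) (dg w f2) P0 := by
    by_contra hn
    push Not at hn
    apply hc
    apply F.p.cst
    intro m hm
    have h := F.p.ge (dg w f1) (dg w f2) P0 m hm
    rw [h1, h2] at h
    rw [h1, h2] at hn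
    have h3 : ((m 0 : ℝ) * 3 + (m 1 : ℝ) * 2) * γ ≤ 3 / 2 * γ := by linarith
    have h4 : (m 0 : ℝ) * 3 + (m 1 : ℝ) * 2 ≤ 3 / 2 := le_of_mul_le_mul_right h3 hγ
    have h5 : m 0 = 0 ∧ m 1 = 0 := by
      constructor
      · by_contra h6
        have h7 : (1 : ℝ) ≤ m 0 := by exact_mod_cast Nat.one_le_iff_ne_zero.mpr h6
        have h8 : (0 : ℝ) ≤ m 1 := by positivity
        linarith
      · by_contra h6
        have h7 : (1 : ℝ) ≤ m 1 := by exact_mod_cast Nat.one_le_iff_ne_zero.mpr h6
        have h8 : (0 : ℝ) ≤ m 0 := by positivity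
        linarith
    ext i
    fin_cases i
    · exact h5.1
    · exact h5.2
  obtain ⟨p, q, m, γ', h⟩ := S.su f1 f2 P0 hb hv
  obtain ⟨rfl, rfl, rfl⟩ := sud32 hγ h1 h2 h
  obtain ⟨i, j, h3, h4⟩ := S.low f1 f2 P0 3 2 m γ' h
  have hm := h.hm
  have hm1 : m = 1 := by
    by_contra hm1
    have h5 : (2 : ℝ) ≤ m := by
      have : 2 ≤ m := by omega
      exact_mod_cast this
    have h6 : (0 : ℝ) ≤ (i * (3 : ℕ) + j * (2 : ℕ)) * γ' := by positivity
    push_cast at h4 h6
    nlinarith
  subst hm1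
  have h7 : i = 0 ∧ j = 0 := by
    push_cast at h4
    have h8 : (i * 3 + j * 2 : ℝ) * γ' < 1 * γ' := by nlinarith
    have h9 : (i * 3 + j * 2 : ℝ) < 1 := lt_of_mul_lt_mul_right h8 hγ.le
    have h10 : i * 3 + j * 2 < 1 := by exact_mod_cast h9
    omega
  obtain ⟨rfl, rfl⟩ := h7
  have h8 := h.top 1 0 rfl
  have h9 := h.ne 1 0 le_rfl
  have e : pd 1 0 P0 = pderiv 0 P0 := rfl
  rw [e] at h8 h9
  have h10 := F.b.t2' f1 f2 g3 P0 hfr h9
  rw [h8, h3] at h10
  push_cast at h10
  linarith

theorem x (F : Facts K w) (S : SuAll K w) (inv : InvStatement K w) (kf : KFactStatement K w)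
    (n964 : N964Statement K w) (hy : YStatement K w) (d23 : D23Statement K w) :
    XStatement K w := by
  intro f1 f2 g3 P0 γ hfr hγ h1 h2 hlo hhi hmin hc hP hadj hR
  have hb3 := F.b.bpos f1 f2 g3 hfr
  have hB1 := B1_lower F S hfr hγ h1 h2 hc hP
  have hs := F.b.sgpos
  have hg : γ < dg w g3 := by linarith
  have hb3' : br w f1 f2 ≤ dg w g3 - γ := by linarith
  have hB2 : br w f1 g3 = γ + br w f2 g3 := by
    have t1 := F.b.two f1 f2 g3 hfr
    have t2 := F.b.two f2 f1 g3 hfr.swap12
    rw [F.b.comm f2 f1] at t2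
    rw [h1, h2] at t1 t2
    rcases t1 with t1 | t1 <;> rcases t2 with t2 | t2 <;> linarith
  have hgood : Good w f1 f2 g3 := ⟨hfr, by rw [h1, h2]; linarith, by rw [h2]; linarith⟩
  rcases inv f1 f2 g3 hgood hR with hb | ⟨Q, hq, -⟩ | ⟨c, P, hp, -⟩ | ⟨c1, c2, P, hp, -⟩ |
      ⟨c1, c2, c3, a, P, γ', hk, -⟩
  · have e1 := F.b.sgle g3 f1 f2 hfr.rot'
    linarith
  · -- type 1
    obtain ⟨g1, ⟨R, rfl⟩, hg1⟩ := F.d.minim {x | ∃ R : MvPolynomial (Fin 2) K,
      x = f1 + ev R f2 g3} ⟨_, Q, rfl⟩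
    have hlt : dg w (f1 + ev R f2 g3) < dg w f1 := lt_of_le_of_lt (hg1 _ ⟨Q, rfl⟩) hq
    have hR3 := strict_dg F hlt
    rw [h1] at hR3 hlt
    have hdeg : dg w (ev R f2 g3) < vdg (dg w f2) (dg w g3) R := by
      refine lt_of_le_of_ne (F.p.ev_le _ _ _) ?_
      intro he
      have hR0 : R ≠ 0 := by
        rintro rfl
        rw [ev_zero, F.d.zero] at hR3
        linarith
      obtain ⟨m, -, hm⟩ := F.p.att (dg w f2) (dg w g3) R hR0
      rw [← he, hR3, h2] at hm
      rcases nat01 (m 0) with h0 | h0 | h0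
      · rw [h0] at hm
        rcases nat012 (m 1) with h5 | h5 | h5 | h5
        · rw [h5] at hm; push_cast at hm; linarith
        · rw [h5] at hm; push_cast at hm; linarith
        · rw [h5] at hm; push_cast at hm; linarith
        · push_cast at hm; nlinarith
      · rw [h0] at hm
        rcases nat01 (m 1) with h5 | h5 | h5
        · rw [h5] at hm; push_cast at hm; linarith
        · rw [h5] at hm; push_cast at hm; linarith
        · push_cast at hm; nlinarith
      · have h5 : (0 : ℝ) ≤ (m 1 : ℝ) * dg w g3 := mul_nonneg (by positivity) (by linarith)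
        nlinarith
    obtain ⟨n1, n2, n3, -⟩ := n964 f1 f2 g3 R γ hfr hγ h1 h2 hg (by linarith) hb3' hdeg
      (by rw [hR3])
    have hne0 : ev (pderiv 0 R) f2 g3 ≠ 0 := by
      intro h0
      rw [h0, F.d.zero] at n2
      linarith
    have hne1 : ev (pderiv 1 R) f2 g3 ≠ 0 := by
      intro h0
      rw [h0, F.d.zero] at n3
      linarith
    have hcr := F.b.cne f2 g3 f1 hfr.rot
    have hcr' := F.b.cne g3 f2 f1 hfr.rot.swap12
    have b1 : br w (f1 + ev R f2 g3) g3 = 2 * γ + br w f2 g3 := by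
      have e1 : dv w (ev (pderiv 0 R) f2 g3 • cr (D f2) (D g3)) = 2 * γ + br w f2 g3 := by
        rw [F.v.smul _ _ hne0 hcr, n2]; rfl
      have e2 : dv w (cr (D f1) (D g3)) = γ + br w f2 g3 := hB2
      unfold br at *
      rw [cr_elem0, F.v.add_right _ _ (by rw [e1, e2]; linarith), e1]
    have b2 : br w (f1 + ev R f2 g3) f2 = 8 / 3 * γ + br w f2 g3 := by
      have e1 : dv w (ev (pderiv 1 R) f2 g3 • cr (D g3) (D f2)) = 8 / 3 * γ + br w f2 g3 := by
        rw [F.v.smul _ _ hne1 hcr']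
        have : dv w (cr (D g3) (D f2)) = br w f2 g3 := F.b.comm g3 f2
        rw [this]; linarith
      have e2 : dv w (cr (D f1) (D f2)) = br w f1 f2 := rfl
      have e3 : br w (f1 + ev R f2 g3) f2 = dv w (cr (D (f1 + ev R f2 g3)) (D f2)) := rfl
      rw [e3, cr_elem1, F.v.add_right _ _ (by rw [e1, e2]; linarith), e1]
    have hle := F.b.le (f1 + ev R f2 g3) g3
    rw [b1] at hle
    refine hy (f1 + ev R f2 g3) f2 g3 (γ / 3) (hfr.elem1 R) (by linarith) (by linarith)
      (by linarith) (by linarith) (by linarith) ?_ (by rw [b1, b2]; linarith)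
      (by rw [b1]; linarith) (by rw [b1]; linarith) (hadj _ (adj1 hfr R))
    intro R'
    apply hg1
    exact ⟨R + R', by rw [ev_add]; ring⟩
  · -- type 2
    have e1 : dg w (f1 + C c * f2) = 3 * γ := dg_addC F h1 (by rw [h2]; linarith) c
    have e3 := strict_dg F hp
    rw [h2] at e3
    have hfr' : Fr (f1 + C c * f2) f2 g3 := by
      have := hfr.elem1 (C c * X 0)
      rwa [ev_mul, ev_C, ev_X0] at this
    have hdeg : dg w (ev P (f1 + C c * f2) g3) < vdg (dg w (f1 + C c * f2)) (dg w g3) P := by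
      refine lt_of_le_of_ne (F.p.ev_le _ _ _) ?_
      intro he
      have hR0 : P ≠ 0 := by
        rintro rfl
        rw [ev_zero, F.d.zero] at e3
        linarith
      obtain ⟨m, -, hm⟩ := F.p.att (dg w (f1 + C c * f2)) (dg w g3) P hR0
      rw [← he, e3, e1] at hm
      rcases Nat.eq_zero_or_pos (m 0) with h0 | h0
      · rw [h0] at hm
        rcases nat01 (m 1) with h5 | h5 | h5
        · rw [h5] at hm; push_cast at hm; linarith
        · rw [h5] at hm; push_cast at hm; linarith
        · push_cast at hm; nlinarith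
      · have h5 : (1 : ℝ) ≤ m 0 := by exact_mod_cast h0
        have h6 : (0 : ℝ) ≤ (m 1 : ℝ) * dg w g3 := mul_nonneg (by positivity) (by linarith)
        nlinarith
    have := d23 (f1 + C c * f2) f2 g3 P γ hfr' hγ e1 h2 hg (by linarith)
      (by rw [br_add_self]; exact hb3') hdeg (by rw [e3])
    linarith
  · -- type 3
    have e3 := strict_dg F hp
    have e1 : dg w (f1 + C c1 * g3) = 3 * γ := dg_addC F h1 (by linarith) c1
    have e2 : dg w (f2 + C c2 * g3) = 2 * γ := dg_addC F h2 (by linarith) c2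
    have hB : br w f2 g3 ≤ br w (f1 + C c1 * g3) (f2 + C c2 * g3) ∨ (c1 = 0 ∧ c2 = 0) := by
      by_cases hc2 : c2 = 0
      · subst hc2
        by_cases hc1 : c1 = 0
        · right; exact ⟨hc1, rfl⟩
        · left
          have e4 : br w (f1 + C c1 * g3) f2 = br w f2 g3 :=
            br_addC' F (F.b.comm g3 f2) (by linarith) hc1
          simp only [map_zero, zero_mul, add_zero]
          exact e4.ge
      · left
        have e4 : br w f1 (f2 + C c2 * g3) = γ + br w f2 g3 := by
          rw [F.b.comm]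
          exact br_addC' F (by rw [F.b.comm]; exact hB2) (by rw [F.b.comm]; linarith) hc2
        have e5 : br w (f1 + C c1 * g3) (f2 + C c2 * g3) = γ + br w f2 g3 := by
          refine br_addC F e4 ?_ c1
          rw [br_add_self', F.b.comm]
          linarith
        rw [e5]; linarith
    rcases hB with hB | ⟨rfl, rfl⟩
    · obtain ⟨x, z, hx⟩ := nores_ex F S (f := f1 + C c1 * g3) (g := f2 + C c2 * g3) (P := P)
        (by linarith)
        (by
          intro n hn
          rw [e1, e2] at hn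
          rcases nat01 n with rfl | rfl | h
          · push_cast at hn; linarith
          · push_cast at hn; linarith
          · nlinarith)
        (by
          intro n hn
          rw [e1, e2] at hn
          rcases nat01 n with rfl | rfl | h
          · push_cast at hn; linarith
          · push_cast at hn; linarith
          · nlinarith)
        (by rw [e3]; linarith) (by rw [e3]; linarith)
      rw [e1, e2, e3] at hx
      rcases Nat.eq_zero_or_pos x with rfl | hx0
      · rcases Nat.eq_zero_or_pos z with rfl | hz0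
        · push_cast at hx; linarith
        · have h5 : (1 : ℝ) ≤ z := by exact_mod_cast hz0
          push_cast at hx
          nlinarith
      · have h5 : (1 : ℝ) ≤ x := by exact_mod_cast hx0
        have h6 : (0 : ℝ) ≤ (z : ℝ) * (2 * γ) := by positivity
        nlinarith
    · simp only [map_zero, zero_mul, add_zero] at hp
      exact absurd hp (not_lt.mpr (hmin P))
  · -- K-move
    have e1 : dg w (f2 + C c3 * g3) = 2 * γ := dg_addC F h2 (by linarith) c3
    have e2 := hk.h2
    rw [e1] at e2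
    have hγγ : γ' = γ := by linarith
    subst hγγ
    have hkf := kf _ _ _ _ _ _ hk
    have e3 := hkf.b1
    rw [br_add_self] at e3
    have e4 := hkf.b3
    have e5 : br w (f1 + C c1 * f2 + C c2 * g3) (f2 + C c3 * g3) ≤ γ' + br w f2 g3 := by
      refine br_add_le F (br_add_le F ?_ ?_ c1) ?_ c2
      · rw [F.b.comm]
        refine br_add_le F ?_ ?_ c3
        · rw [F.b.comm]; linarith
        · rw [F.b.comm]; linarith
      · rw [F.b.comm]
        refine br_add_le F ?_ ?_ c3
        · rw [br_self F]; linarith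
        · rw [F.b.comm]; linarith
      · rw [br_add_self', F.b.comm]; linarith
    linarith

end Pool.Agent.Lib.MP_e1f7e2_al.SU.H72
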