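import Pool.Agent.Lib.MP_e1f7e2_al.SU.H52.Tools

set_option autoImplicit false

/-!
Module Y.
-/

open MvPolynomial

namespace Pool.Agent.Lib.MP_e1f7e2_al.SU.H72

open Pool.Agent.Lib.MP_e1f7e2_al.SU.H52

variable {K : Type*} [Field K] {w : Fin 3 → ℝ}

/-- bracket of `f + c1 k` with `g + c2 k`, when `[f,g]` dominates -/
lemma br_plane (F : Facts K w) {f g k : MvPolynomial (Fin 3) K} {a : ℝ} (h : br w f g = a)
    (h1 : br w f k < a) (h2 : br w g k < a) (c1 c2 : K) :
    br w (f + C c1 * k) (g + C c2 * k) = a := by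
  have e1 : br w f (g + C c2 * k) = a := by
    rw [F.b.comm]
    exact br_addC F (by rw [F.b.comm]; exact h) (by rw [F.b.comm]; exact h1) c2
  refine br_addC F e1 ?_ c1
  have e2 : br w k (g + C c2 * k) = br w k g := by
    unfold br
    rw [D_add, D_Cmul, cr_add_right, cr_smul_right, cr_self, smul_zero, add_zero]
  rw [e2, F.b.comm]
  exact h2

theorem y (F : Facts K w) (S : SuAll K w) (inv : InvStatement K w) (kf : KFactStatement K w) :
    YStatement K w := by
  intro g1 f2 f3 μ hfr hμ h2 h3 h6 h9 hmin hb1 hb2 hb9 hR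
  have hgood : Good w g1 f2 f3 := ⟨hfr, by rw [h2]; exact h6, by rw [h2, h3]; linarith⟩
  have hpos : 0 < dg w g1 := by linarith
  have ht8 : dg w g1 ≠ 8 * μ := by
    intro he
    have e1 : dg w g1 = dg w (f3 ^ 2) := by
      rw [F.d.pow, h3, he]; push_cast; ring
    obtain ⟨c, hc, h1⟩ := F.d.lead g1 (f3 ^ 2) hpos e1
    have h4 := hmin (- (C c * X 1 ^ 2))
    rw [ev_neg, ev_mul, ev_C, ev_pow, ev_X1, ← sub_eq_add_neg] at h4
    exact absurd h1 (not_lt.mpr h4)
  rcases inv g1 f2 f3 hgood hR with hb | ⟨Q, hq, -⟩ | ⟨c, P, hp, -⟩ | ⟨c1, c2, P, hp, -⟩ |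
      ⟨c1, c2, c3, a, P, γ, hk, -⟩
  · have e1 := F.b.sgle g1 f2 f3 hfr
    have e2 := F.b.par f2 f3 3 2 (by norm_num) (by norm_num) (by rw [h2]; linarith)
      (by rw [h2, h3]; push_cast; ring)
    rw [h2, h3] at *
    linarith
  · exact absurd hq (not_lt.mpr (hmin Q))
  · have e1 : dg w (g1 + C c * f2) = dg w g1 := dg_addC F rfl (by rw [h2]; exact h6) c
    have e2 : br w (g1 + C c * f2) f3 = br w g1 f3 := br_addC F rfl hb2 c
    have e3 := strict_dg F hp
    rw [h2] at e3
    obtain ⟨x, z, hx⟩ := nores_ex F S (f := g1 + C c * f2) (g := f3) (P := P)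
      (by rw [e2]; linarith)
      (by
        intro n hn
        rw [e1, h3] at hn
        rcases nat012 n with rfl | rfl | rfl | h
        · push_cast at hn; linarith
        · push_cast at hn; linarith
        · apply ht8; push_cast at hn; linarith
        · nlinarith)
      (by
        intro n hn
        rw [e1, h3] at hn
        rcases nat01 n with rfl | rfl | h
        · push_cast at hn; linarith
        · push_cast at hn; linarith
        · nlinarith)
      (by rw [e2, e3]; linarith) (by rw [e3]; linarith)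
    rw [e1, h3, e3] at hx
    rcases Nat.eq_zero_or_pos x with rfl | hx0
    · have h5 : (2 * z : ℝ) * μ = 3 * μ := by push_cast at hx; linarith
      have h6 : (2 * z : ℝ) = 3 := mul_right_cancel₀ hμ.ne' h5
      have h7 : 2 * z = 3 := by exact_mod_cast h6
      omega
    · have h5 : (1 : ℝ) ≤ x := by exact_mod_cast hx0
      have h6 : (0 : ℝ) ≤ (z : ℝ) * (4 * μ) := by positivity
      nlinarith
  · have e1 : dg w (g1 + C c1 * f3) = dg w g1 := dg_addC F rfl (by rw [h3]; linarith) c1
    have e1' : dg w (f2 + C c2 * f3) = 6 * μ := dg_addC F h2 (by rw [h3]; linarith) c2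
    have e2 : br w (g1 + C c1 * f3) (f2 + C c2 * f3) = br w g1 f2 :=
      br_plane F rfl hb1 (by linarith) c1 c2
    have e3 := strict_dg F hp
    rw [h3] at e3
    obtain ⟨x, z, hx⟩ := nores_ex F S (f := g1 + C c1 * f3) (g := f2 + C c2 * f3) (P := P)
      (by rw [e2]; linarith)
      (by
        intro n hn
        rw [e1, e1'] at hn
        rcases nat01 n with rfl | rfl | h
        · push_cast at hn; linarith
        · push_cast at hn; linarith
        · nlinarith)
      (by
        intro n hn
        rw [e1, e1'] at hn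
        rcases nat01 n with rfl | rfl | h
        · push_cast at hn; linarith
        · push_cast at hn; linarith
        · nlinarith)
      (by rw [e2, e3]; linarith) (by rw [e3]; linarith)
    rw [e1, e1', e3] at hx
    rcases Nat.eq_zero_or_pos x with rfl | hx0
    · rcases Nat.eq_zero_or_pos z with rfl | hz0
      · push_cast at hx; linarith
      · have h5 : (1 : ℝ) ≤ z := by exact_mod_cast hz0
        push_cast at hx
        nlinarith
    · have h5 : (1 : ℝ) ≤ x := by exact_mod_cast hx0
      have h6 : (0 : ℝ) ≤ (z : ℝ) * (6 * μ) := by positivity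
      nlinarith
  · have e1 : dg w (g1 + C c1 * f2 + C c2 * f3) = dg w g1 :=
      dg_addC F (dg_addC F rfl (by rw [h2]; exact h6) c1) (by rw [h3]; linarith) c2
    have e1' : dg w (f2 + C c3 * f3) = 6 * μ := dg_addC F h2 (by rw [h3]; linarith) c3
    have e2 := hk.h2
    rw [e1'] at e2
    have e3 := (kf _ _ _ _ _ _ hk).d1'' (by rw [h3]; linarith)
    rw [e1] at e3
    linarith

end Pool.Agent.Lib.MP_e1f7e2_al.SU.H72
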